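import Mathlib
import Pool.Agent.TH744.LR.Main
import Pool.Agent.X249.GR.Cover

/-!
# Chromatic number and rank for graphs that are block compositions

Graphs on product sets whose adjacency is an arbitrary Boolean function of arbitrary functions of
the pairs of the single coordinates, and graphs which are covered by such pieces.
-/

set_option autoImplicit false

namespace Pool.Agent.Results.MP_3bd889_lc.BlockCompositions

open Finset

/-- `F` has a deterministic two-party protocol with exactly `c` bits: `t` is the transcript so far,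
`owner t` says who speaks, and the answer is a function of the transcript. -/
def HasProtocol {X Y : Type} (F : X → Y → Bool) (c : ℕ) : Prop :=
  ∃ (owner : List Bool → Bool) (a : List Bool → X → Bool)
      (b : List Bool → Y → Bool) (out : List Bool → Bool),
      ∀ x y, out (Nat.iterate
        (fun t : List Bool => t ++ [if owner t then a t x else b t y]) c []) = F x y

/-- the matrix of `F` with the entries `0` and `1` -/
def mat {X Y : Type} (F : X → Y → Bool) : Matrix X Y ℝ :=
  Matrix.of (fun (x : X) (y : Y) => if F x y then (1 : ℝ) else 0)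

/-- `log₂` of the real rank of the matrix of `F` (`0` if the rank is `0`) -/
noncomputable def logRank {X Y : Type} [Fintype X] [Fintype Y] (F : X → Y → Bool) : ℝ :=
  Real.logb 2 ((mat F).rank : ℝ)

/-- the matrix of `f` has at least three distinct rows or at least three distinct columns -/
def Nondegenerate {X Y : Type} (f : X → Y → Bool) : Prop :=
  (∃ x₁ x₂ x₃, f x₁ ≠ f x₂ ∧ f x₁ ≠ f x₃ ∧ f x₂ ≠ f x₃) ∨
  (∃ y₁ y₂ y₃, (fun x => f x y₁) ≠ (fun x => f x y₂) ∧ (fun x => f x y₁) ≠ (fun x => f x y₃) ∧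
    (fun x => f x y₂) ≠ (fun x => f x y₃))

theorem piece (K C k : ℕ) (X Y : Fin k → Type) [∀ i, Fintype (X i)] [∀ i, Fintype (Y i)]
    (f : ∀ i, X i → Y i → Bool) (g : (Fin k → Bool) → Bool) (hf : ∀ i, Nondegenerate (f i))
    (hK : ∀ i, ∃ c : ℕ, HasProtocol (f i) c ∧ (c : ℝ) ≤ K * (logRank (f i) + 1) ^ C) :
    ∃ c : ℕ, HasProtocol (fun (x : ∀ i, X i) (y : ∀ i, Y i) => g (fun i => f i (x i) (y i))) c ∧
      (c : ℝ) ≤ K * 3 ^ C * (logRank (fun (x : ∀ i, X i) (y : ∀ i, Y i) =>
        g (fun i => f i (x i) (y i)))) ^ (max C 1 + 3) := by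
  classical
  have hcomp : Pool.Agent.TH744.LR.comp (fun U : Finset (Fin k) => g (fun i => decide (i ∈ U)))
        (Pool.Agent.TH744.LR.inner f) = fun x y => g (fun i => f i (x i) (y i)) := by
    funext x y
    simp only [Pool.Agent.TH744.LR.comp]
    congr 1
    funext i
    rw [Bool.eq_iff_iff, decide_eq_true_iff, Finset.mem_filter]
    simp [Pool.Agent.TH744.LR.inner]
  rcases Nat.eq_zero_or_pos C with rfl | hC
  · have hq2 : ∀ i, Pool.Agent.TH744.LR.Prot (f i) K := by
      intro i
      obtain ⟨c, hc, hcK⟩ := hK i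
      rw [pow_zero, mul_one] at hcK
      exact Pool.Agent.TH744.LR.Prot.mono hc (by exact_mod_cast hcK)
    have h := Pool.Agent.TH744.LR.main_bounded f hf
      (fun U : Finset (Fin k) => g (fun i => decide (i ∈ U))) K hq2
    rw [hcomp] at h
    obtain ⟨c, hc, hcK⟩ := h
    refine ⟨c, hc, ?_⟩
    rw [pow_zero, mul_one]
    exact hcK
  · have h := Pool.Agent.TH744.LR.main f hf
      (fun U : Finset (Fin k) => g (fun i => decide (i ∈ U))) K C hC hK
    rw [hcomp] at h
    rw [max_eq_left hC]
    exact h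

theorem general (K C t : ℕ) (V : Type) [Fintype V] (G : SimpleGraph V) [DecidableRel G.Adj]
    (k : Fin t → ℕ) (X : ∀ j, Fin (k j) → Type) [∀ j i, Fintype (X j i)]
    (f : ∀ j i, X j i → X j i → Bool) (g : ∀ j, (Fin (k j) → Bool) → Bool)
    (φ : ∀ j, (∀ i, X j i) → V) (hφ : ∀ v, ∃ j x, φ j x = v)
    (hG : ∀ j x y, G.Adj (φ j x) (φ j y) ↔ g j (fun i => f j i (x i) (y i)) = true)
    (hf : ∀ j i, Nondegenerate (f j i))
    (hK : ∀ j i, ∃ c : ℕ, HasProtocol (f j i) c ∧ (c : ℝ) ≤ K * (logRank (f j i) + 1) ^ C) :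
    Real.logb 2 (G.chromaticNumber.toNat : ℝ) ≤ Real.logb 2 t +
      K * 3 ^ C * (Real.logb 2 ((G.adjMatrix ℝ).rank : ℝ)) ^ (max C 1 + 3) := by
  classical
  have hr : 0 ≤ Real.logb 2 ((G.adjMatrix ℝ).rank : ℝ) := Pool.Agent.X249.GR.logb_nonneg _
  refine Pool.Agent.X249.GR.chrom_cover G t (fun j => ∀ i, X j i) φ hφ _ (by positivity) ?_
  intro j
  have e : (fun x y : (∀ i, X j i) => decide (G.Adj (φ j x) (φ j y))) =
      fun x y => g j (fun i => f j i (x i) (y i)) := by
    funext x y
    rw [Bool.eq_iff_iff, decide_eq_true_iff]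
    exact hG j x y
  obtain ⟨c, hc, hcB⟩ := piece K C (k j) (X j) (X j) (f j) (g j) (hf j) (hK j)
  rw [e]
  refine ⟨c, hc, hcB.trans ?_⟩
  refine mul_le_mul_of_nonneg_left ?_ (by positivity)
  refine pow_le_pow_left₀ (Pool.Agent.X249.GR.logb_nonneg _) ?_ _
  refine Pool.Agent.X249.GR.logb_mono ?_
  exact Pool.Agent.X249.GR.rank_pull G (φ j) _ (fun x y => by rw [← congrFun (congrFun e x) y])

theorem nonsingular_protocol {X : Type} [Fintype X] (f : X → X → Bool)
    (hr : (mat f).rank = Fintype.card X) :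
    ∃ c : ℕ, HasProtocol f c ∧ (c : ℝ) ≤ (2 : ℕ) * (logRank f + 1) ^ 1 := by
  classical
  have hcard : Fintype.card X ≤ Fintype.card (Fin (Nat.clog 2 (Fintype.card X)) → Bool) := by
    rw [Fintype.card_fun, Fintype.card_bool, Fintype.card_fin]
    exact Nat.le_pow_clog (by norm_num) _
  obtain ⟨e⟩ := Function.Embedding.nonempty_of_card_le hcard
  rcases isEmpty_or_nonempty X with hX | hX
  · refine ⟨0, ⟨fun _ => true, fun _ _ => true, fun _ _ => true, fun _ => true,
      fun x => (hX.false x).elim⟩, ?_⟩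
    have : 0 ≤ logRank f := Pool.Agent.X249.GR.logb_nonneg _
    push_cast
    positivity
  have h := Pool.Agent.TH744.LR.Prot.code (Nat.clog 2 (Fintype.card X))
    (fun w (y : X) => f (Function.invFun e w) y) (fun x : X => e x)
  have h2 : (fun x y : X => f (Function.invFun e (e x)) y) = f := by
    funext x y
    rw [Function.leftInverse_invFun e.injective x]
  rw [h2] at h
  refine ⟨_, h, ?_⟩
  have h3 := Pool.Agent.H630R2.LR.clog_le (Fintype.card X)
  unfold logRank
  rw [hr]
  have h4 : 0 ≤ Real.logb 2 (Fintype.card X : ℝ) := Pool.Agent.X249.GR.logb_nonneg _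
  push_cast
  linarith

theorem nonsingular_nondegenerate {X : Type} [Fintype X] (f : X → X → Bool)
    (hc : 3 ≤ Fintype.card X) (hr : (mat f).rank = Fintype.card X) : Nondegenerate f := by
  classical
  have hli : LinearIndependent ℝ (mat f).row := by
    rw [linearIndependent_iff_card_eq_finrank_span, ← hr, Matrix.rank_eq_finrank_span_row]
    rfl
  have hinj : ∀ x y, x ≠ y → f x ≠ f y := by
    intro x y hxy h
    apply hxy
    apply hli.injective
    funext z
    simp [mat, Matrix.row, h]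
  obtain ⟨a, b, c, hab, hac, hbc⟩ := Fintype.two_lt_card_iff.1 hc
  exact Or.inl ⟨a, b, c, hinj _ _ hab, hinj _ _ hac, hinj _ _ hbc⟩

/-- **Chromatic number and rank for block compositions.** `r` is the real rank of the adjacency
matrix of `G`.

1. Let the vertices of `G` be covered by the images of `t` maps `φ j` of products of finite sets
`X j i`, `i < k j`, such that `φ j x ~ φ j y` if and only if
`g j (f j 0 (x 0, y 0), ..., f j (k j - 1) (x (k j - 1), y (k j - 1)))` is true, with arbitrary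
outer functions `g j` and arbitrary nondegenerate inner functions `f j i` of two elements of `X j i`
(not necessarily symmetric). If every inner function has a protocol with at most
`K (log₂ rank + 1) ^ C` bits, then `log₂ χ(G) ≤ log₂ t + K 3 ^ C (log₂ r) ^ (max(C, 1) + 3)`.

2. If, instead, the matrices of all inner functions are nonsingular with at least three rows, then
`log₂ χ(G) ≤ log₂ t + 6 (log₂ r) ^ 4`.

3. If `G` is a graph on a product of sets with `q i ≥ 3` elements in which the adjacency of `x` and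
`y` depends only on the set of the coordinates in which they differ, then
`log₂ χ(G) ≤ 6 (log₂ r) ^ 4`. -/
theorem result :
    (∀ (K C t : ℕ) (V : Type) [Fintype V] (G : SimpleGraph V) [DecidableRel G.Adj]
      (k : Fin t → ℕ) (X : ∀ j, Fin (k j) → Type) [∀ j i, Fintype (X j i)]
      (f : ∀ j i, X j i → X j i → Bool) (g : ∀ j, (Fin (k j) → Bool) → Bool)
      (φ : ∀ j, (∀ i, X j i) → V), (∀ v, ∃ j x, φ j x = v) →
      (∀ j x y, G.Adj (φ j x) (φ j y) ↔ g j (fun i => f j i (x i) (y i)) = true) →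
      (∀ j i, Nondegenerate (f j i)) →
      (∀ j i, ∃ c : ℕ, HasProtocol (f j i) c ∧ (c : ℝ) ≤ K * (logRank (f j i) + 1) ^ C) →
      Real.logb 2 (G.chromaticNumber.toNat : ℝ) ≤ Real.logb 2 t +
        K * 3 ^ C * (Real.logb 2 ((G.adjMatrix ℝ).rank : ℝ)) ^ (max C 1 + 3)) ∧
    (∀ (t : ℕ) (V : Type) [Fintype V] (G : SimpleGraph V) [DecidableRel G.Adj]
      (k : Fin t → ℕ) (X : ∀ j, Fin (k j) → Type) [∀ j i, Fintype (X j i)]
      (f : ∀ j i, X j i → X j i → Bool) (g : ∀ j, (Fin (k j) → Bool) → Bool)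
      (φ : ∀ j, (∀ i, X j i) → V), (∀ v, ∃ j x, φ j x = v) →
      (∀ j x y, G.Adj (φ j x) (φ j y) ↔ g j (fun i => f j i (x i) (y i)) = true) →
      (∀ j i, 3 ≤ Fintype.card (X j i) ∧ (mat (f j i)).rank = Fintype.card (X j i)) →
      Real.logb 2 (G.chromaticNumber.toNat : ℝ) ≤ Real.logb 2 t +
        6 * (Real.logb 2 ((G.adjMatrix ℝ).rank : ℝ)) ^ 4) ∧
    ∀ (k : ℕ) (q : Fin k → ℕ), (∀ i, 3 ≤ q i) →
      ∀ (G : SimpleGraph (∀ i, Fin (q i))) [DecidableRel G.Adj] (P : Finset (Fin k) → Prop),
      (∀ x y, G.Adj x y ↔ P (univ.filter fun i => x i ≠ y i)) →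
      Real.logb 2 (G.chromaticNumber.toNat : ℝ) ≤
        6 * (Real.logb 2 ((G.adjMatrix ℝ).rank : ℝ)) ^ 4 := by
  classical
  have h2 : ∀ (t : ℕ) (V : Type) [Fintype V] (G : SimpleGraph V) [DecidableRel G.Adj]
      (k : Fin t → ℕ) (X : ∀ j, Fin (k j) → Type) [∀ j i, Fintype (X j i)]
      (f : ∀ j i, X j i → X j i → Bool) (g : ∀ j, (Fin (k j) → Bool) → Bool)
      (φ : ∀ j, (∀ i, X j i) → V), (∀ v, ∃ j x, φ j x = v) →
      (∀ j x y, G.Adj (φ j x) (φ j y) ↔ g j (fun i => f j i (x i) (y i)) = true) →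
      (∀ j i, 3 ≤ Fintype.card (X j i) ∧ (mat (f j i)).rank = Fintype.card (X j i)) →
      Real.logb 2 (G.chromaticNumber.toNat : ℝ) ≤ Real.logb 2 t +
        6 * (Real.logb 2 ((G.adjMatrix ℝ).rank : ℝ)) ^ 4 := by
    intro t V _ G _ k X _ f g φ hφ hG hf
    refine (general 2 1 t V G k X f g φ hφ hG
      (fun j i => nonsingular_nondegenerate _ (hf j i).1 (hf j i).2)
      (fun j i => nonsingular_protocol _ (hf j i).2)).trans (le_of_eq ?_)
    norm_num
  refine ⟨fun K C t V _ G _ k X _ f g φ => general K C t V G k X f g φ, h2, ?_⟩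
  intro k q hq G _ P hP
  have h := h2 1 (∀ i, Fin (q i)) G (fun _ => k) (fun _ i => Fin (q i))
    (fun _ i x y => decide (x = y)) (fun _ v => decide (P (univ.filter fun i => v i = false)))
    (fun _ => id) (fun v => ⟨0, v, rfl⟩) (by
      intro _ x y
      rw [decide_eq_true_iff]
      change G.Adj x y ↔ _
      rw [hP]
      simp) (by
      intro _ i
      refine ⟨by rw [Fintype.card_fin]; exact hq i, ?_⟩
      have e : mat (fun x y : Fin (q i) => decide (x = y)) = 1 := by
        ext x y
        simp [mat, Matrix.one_apply]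
      rw [e, Matrix.rank_one])
  rw [Nat.cast_one, Real.logb_one, zero_add] at h
  exact h

end Pool.Agent.Results.MP_3bd889_lc.BlockCompositions
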