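import Mathlib
import Pool.Agent.TH410.LR.Gr
import Pool.Agent.X249.GR.Cover

/-!
# Chromatic number and rank for Cayley graphs given by isomorphism-invariant properties

Cayley graphs of `F_2 ^ Ω` whose connection set is an isomorphism-invariant property of
finite structures, and graphs that are covered by such pieces.
-/

set_option autoImplicit false

namespace Pool.Agent.Results.MP_3bd889_lc.InvariantCayleyGraphs

open Finset

/-- **Chromatic number and rank for isomorphism-invariant Cayley graphs.** `r` is the real rank of the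
adjacency matrix.

1. Let the vertices of the finite graph `G` be covered by the images of `t` maps
`φ j : (Ω j → ZMod 2) → V` such that, for every `j`, the adjacency of `φ j x` and `φ j y` is a
function `f j (x + y)` of `x + y`. Let `f j` be invariant under an action on `Ω j` of a product of
finite symmetric groups `Sym (n j i)` with at most `m` orbits, such that every point `ω` of `Ω j`
is fixed by all group elements which fix the at most `k` elements of `D j ω` (for
instance `Ω j` = the pairs, the `k`-element sets or the `k`-tuples of elements). Then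
`log₂ χ(G) ≤ log₂ t + m (24 (k + 12) (log₂ r + 1) ^ 2) ^ k + 1`.

2. Let `P` be an isomorphism-invariant property of graphs on `n` vertices and let `Γ` be a
graph whose vertices are all graphs on `n` vertices, with `G ~ H` if and only if the symmetric
difference of `G` and `H` has the property `P`. Then `log₂ χ(Γ) ≤ 112897 (log₂ r + 1) ^ 4`, and if
`336 (log₂ r + 1) ^ 2 ≤ n` then `Γ` has no edges, or `G ~ H` if and only if the numbers of edges of `G`
and `H` have different parity; in particular `χ(Γ) ≤ 2`. -/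
theorem result :
    (∀ (t k m : ℕ) (V : Type) [Fintype V] (G : SimpleGraph V) [DecidableRel G.Adj]
      (I : Fin t → Type) [∀ j, Fintype (I j)] [∀ j, DecidableEq (I j)] (n : ∀ j, I j → ℕ)
      (Ω : Fin t → Type) [∀ j, Fintype (Ω j)] [∀ j, DecidableEq (Ω j)]
      [∀ j, MulAction (∀ i, Equiv.Perm (Fin (n j i))) (Ω j)]
      (D : ∀ j, Ω j → Finset (Σ i, Fin (n j i))) (φ : ∀ j, (Ω j → ZMod 2) → V)
      (f : ∀ j, (Ω j → ZMod 2) → Bool),
      (∀ v, ∃ j x, φ j x = v) →
      (∀ j x y, G.Adj (φ j x) (φ j y) ↔ f j (x + y) = true) →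
      (∀ j ω, (D j ω).card ≤ k) →
      (∀ (j : Fin t) (ω : Ω j) (g : ∀ i, Equiv.Perm (Fin (n j i))),
        (∀ p ∈ D j ω, g p.1 p.2 = p.2) → g • ω = ω) →
      (∀ j, Nat.card (MulAction.orbitRel.Quotient (∀ i, Equiv.Perm (Fin (n j i))) (Ω j)) ≤ m) →
      (∀ (j : Fin t) (g : ∀ i, Equiv.Perm (Fin (n j i))) (x : Ω j → ZMod 2),
        f j (fun ω => x (g • ω)) = f j x) →
      Real.logb 2 (G.chromaticNumber.toNat : ℝ) ≤ Real.logb 2 t +
        (m * (24 * (k + 12) * (Real.logb 2 ((G.adjMatrix ℝ).rank : ℝ) + 1) ^ 2) ^ k + 1)) ∧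
    ∀ (n : ℕ) (P : SimpleGraph (Fin n) → Prop),
      (∀ G H : SimpleGraph (Fin n), Nonempty (G ≃g H) → (P G ↔ P H)) →
      ∀ (Γ : SimpleGraph (SimpleGraph (Fin n))) [DecidableRel Γ.Adj],
      (∀ G H : SimpleGraph (Fin n), Γ.Adj G H ↔ P (symmDiff G H)) →
      Real.logb 2 (Γ.chromaticNumber.toNat : ℝ) ≤
        112897 * (Real.logb 2 ((Γ.adjMatrix ℝ).rank : ℝ) + 1) ^ 4 ∧
      (336 * (Real.logb 2 ((Γ.adjMatrix ℝ).rank : ℝ) + 1) ^ 2 ≤ n →
        ((∀ G H, ¬ Γ.Adj G H) ∨
          ∀ G H : SimpleGraph (Fin n), Γ.Adj G H ↔ ¬ (G.edgeSet.ncard % 2 = H.edgeSet.ncard % 2)) ∧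
        Γ.chromaticNumber ≤ 2) := by
  classical
  constructor
  · intro t k m V _ G _ I _ _ n Ω _ _ _ D φ f hφ hG hD hfix hm hf
    have hr : 0 ≤ Real.logb 2 ((G.adjMatrix ℝ).rank : ℝ) := Pool.Agent.X249.GR.logb_nonneg _
    refine Pool.Agent.X249.GR.chrom_cover G t (fun j => Ω j → ZMod 2) φ hφ _ (by positivity) ?_
    intro j
    have e : (fun x y : Ω j → ZMod 2 => decide (G.Adj (φ j x) (φ j y))) =
        fun x y => f j (x + y) := by
      funext x y
      rw [Bool.eq_iff_iff, decide_eq_true_iff]
      exact hG j x y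
    obtain ⟨c, owner, a, b, out, h, hc⟩ := TH410.LR.final (D j) (hD j) (hfix j) (hm j) (f j) (hf j)
    rw [e]
    refine ⟨c, ⟨owner, a, b, out, h⟩, hc.trans ?_⟩
    have h1 : TH410.LR.logRank (fun x y : Ω j → ZMod 2 => f j (x + y)) ≤
        Real.logb 2 ((G.adjMatrix ℝ).rank : ℝ) :=
      Pool.Agent.X249.GR.logb_mono (Pool.Agent.X249.GR.rank_pull G (φ j) _
        (fun x y => by rw [← congrFun (congrFun e x) y]))
    have h2 : 0 ≤ TH410.LR.logRank (fun x y : Ω j → ZMod 2 => f j (x + y)) :=
      Pool.Agent.X249.GR.logb_nonneg _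
    have h3 : (TH410.LR.logRank (fun x y : Ω j → ZMod 2 => f j (x + y)) + 1) ^ 2 ≤
        (Real.logb 2 ((G.adjMatrix ℝ).rank : ℝ) + 1) ^ 2 :=
      pow_le_pow_left₀ (by linarith) (by linarith) 2
    gcongr
  · intro n P hP Γ _ hΓ
    have e : (fun G H : SimpleGraph (Fin n) => decide (Γ.Adj G H)) =
        fun G H => (fun K : SimpleGraph (Fin n) => decide (P K)) (symmDiff G H) := by
      funext G H
      rw [Bool.eq_iff_iff, decide_eq_true_iff]
      simp [hΓ]
    have hP' : ∀ G H : SimpleGraph (Fin n), Nonempty (G ≃g H) →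
        (fun K : SimpleGraph (Fin n) => decide (P K)) G = (fun K => decide (P K)) H := by
      intro G H h
      simp only [hP G H h]
    have hrk : TH410.LR.logRank (fun G H : SimpleGraph (Fin n) =>
        (fun K : SimpleGraph (Fin n) => decide (P K)) (symmDiff G H)) =
        Real.logb 2 ((Γ.adjMatrix ℝ).rank : ℝ) := by
      rw [← e]
      unfold TH410.LR.logRank
      congr 2
      have e2 : (Matrix.of fun (x y : SimpleGraph (Fin n)) =>
          if decide (Γ.Adj x y) = true then (1 : ℝ) else 0) = Γ.adjMatrix ℝ := by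
        ext x y
        simp [SimpleGraph.adjMatrix_apply]
      rw [e2]
    constructor
    · obtain ⟨c, owner, a, b, out, h, hc⟩ := TH410.LR.graphs_protocol n _ hP'
      rw [hrk] at hc
      refine (Pool.Agent.H287R3.LR.logb_chromatic_le Γ ⟨owner, a, b, out, ?_⟩).trans hc
      intro G H
      rw [h G H]
      simp [hΓ]
    · intro hn
      rw [← hrk] at hn
      obtain ⟨q, hq⟩ := TH410.LR.graphs_parity n _ hP' hn
      have hbot : P ⊥ → False := by
        intro h
        have h1 := (hΓ ⊥ ⊥).2 (by rw [symmDiff_self]; exact h)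
        exact Γ.loopless.irrefl _ h1
      have hq0 : q 0 = false := by
        have h1 := hq ⊥
        rw [SimpleGraph.edgeSet_bot, Set.ncard_empty, Nat.cast_zero] at h1
        rw [← h1]
        simpa using hbot
      have hadj : ∀ G H : SimpleGraph (Fin n), Γ.Adj G H ↔
          q ((symmDiff G H).edgeSet.ncard : ZMod 2) = true := by
        intro G H
        rw [hΓ, ← hq]
        simp
      have hcount : ∀ G H : SimpleGraph (Fin n), ((symmDiff G H).edgeSet.ncard : ZMod 2) =
          (G.edgeSet.ncard : ZMod 2) + (H.edgeSet.ncard : ZMod 2) := by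
        intro G H
        have h1 : (symmDiff G H).edgeSet = symmDiff G.edgeSet H.edgeSet := by
          rw [symmDiff_def, symmDiff_def, SimpleGraph.edgeSet_sup, SimpleGraph.edgeSet_sdiff,
            SimpleGraph.edgeSet_sdiff]
          rfl
        have h2 : (symmDiff G.edgeSet H.edgeSet).ncard =
            (G.edgeSet \ H.edgeSet).ncard + (H.edgeSet \ G.edgeSet).ncard := by
          rw [Set.symmDiff_def, Set.ncard_union_eq disjoint_sdiff_sdiff (Set.toFinite _)
            (Set.toFinite _)]
        have h3 : (G.edgeSet \ H.edgeSet).ncard + (G.edgeSet ∩ H.edgeSet).ncard =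
            G.edgeSet.ncard := by
          rw [add_comm]
          exact Set.ncard_inter_add_ncard_diff_eq_ncard _ _ (Set.toFinite _)
        have h4 : (H.edgeSet \ G.edgeSet).ncard + (G.edgeSet ∩ H.edgeSet).ncard =
            H.edgeSet.ncard := by
          rw [add_comm, Set.inter_comm]
          exact Set.ncard_inter_add_ncard_diff_eq_ncard _ _ (Set.toFinite _)
        rw [h1, h2, ← h3, ← h4]
        push_cast
        have h5 : ∀ z : ZMod 2, z + z = 0 := by decide
        have h6 := h5 ((G.edgeSet ∩ H.edgeSet).ncard : ZMod 2)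
        linear_combination -h6
      have hcases : (∀ G H, ¬ Γ.Adj G H) ∨ ∀ G H : SimpleGraph (Fin n), Γ.Adj G H ↔
          ¬ (G.edgeSet.ncard % 2 = H.edgeSet.ncard % 2) := by
        rcases hq1 : q 1 with _ | _
        · left
          intro G H h
          rw [hadj] at h
          have h1 : ∀ z : ZMod 2, z = 0 ∨ z = 1 := by decide
          rcases h1 ((symmDiff G H).edgeSet.ncard : ZMod 2) with h2 | h2
          · rw [h2, hq0] at h; cases h
          · rw [h2, hq1] at h; cases h
        · right
          intro G H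
          rw [hadj, hcount]
          have h1 : ∀ z w : ZMod 2, q (z + w) = true ↔ ¬ z = w := by
            intro z w
            have h2 : ∀ z w : ZMod 2, (z = w ∧ z + w = 0) ∨ (¬ z = w ∧ z + w = 1) := by decide
            rcases h2 z w with ⟨h3, h4⟩ | ⟨h3, h4⟩
            · rw [h4, hq0]; simp [h3]
            · rw [h4, hq1]; simp [h3]
          rw [h1, ZMod.natCast_eq_natCast_iff']
      refine ⟨hcases, ?_⟩
      have hcol : Γ.Coloring (Fin 2) := by
        refine SimpleGraph.Coloring.mk
          (fun G : SimpleGraph (Fin n) => ⟨G.edgeSet.ncard % 2, Nat.mod_lt _ (by norm_num)⟩) ?_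
        intro G H hGH heq
        rcases hcases with h | h
        · exact h G H hGH
        · exact (h G H).1 hGH (by simpa using heq)
      exact_mod_cast hcol.colorable.chromaticNumber_le

end Pool.Agent.Results.MP_3bd889_lc.InvariantCayleyGraphs
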