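import Pool.Agent.X246.RSH.Shatter

/-!
# Graphs of small rank and large chromatic number are robustly universal

Two structural properties that every counterexample to the graph form of the log-rank conjecture
must have, with all `2^s` (resp. `2^k`) pattern classes of large chromatic number.
-/

set_option autoImplicit false

namespace Pool.Agent.Results.MP_3bd889_lc.RobustShattering

open Finset Pool.Agent.X246.RSH

theorem lt_iff {V : Type} {G : SimpleGraph V} {n : ℕ} :
    (n : ℕ∞) < G.chromaticNumber ↔ ¬ G.Colorable n := by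
  rw [← SimpleGraph.chromaticNumber_le_iff_colorable, not_le]

/-- Let `G` be a finite graph, `K` a field (for the problem: `K = ℝ`) and let the adjacency matrix of
`G` have rank at most `r` over `K`.
(1) If `χ(G) > ∑_{i<s} C(r,i) + C(r,s) D`, then there is a set `S` of `s` vertices such that for each
`P ⊆ S` the set of the vertices adjacent to all of `P` and to none of `S \ P` induces a subgraph of
chromatic number more than `D`.
(2) If `r ≤ 2^m + 2`, `D ≥ 8` and `χ(G) > D 2^(k m (m + 11) / 2)`, then every graph `H` on `k`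
vertices has an induced copy `e` in `G` such that for every set `P` of vertices of `H` the vertices
of `G` adjacent to `e i` exactly for the `i ∈ P` induce a subgraph of chromatic number more than
`D`. -/
theorem result (K : Type) [Field K] (V : Type) [Fintype V] (G : SimpleGraph V)
    [DecidableRel G.Adj] :
    (∀ r s D : ℕ, (G.adjMatrix K).rank ≤ r →
      ((∑ i ∈ range s, r.choose i + r.choose s * D : ℕ) : ℕ∞) < G.chromaticNumber →
      ∃ S : Finset V, S.card = s ∧ ∀ P ⊆ S,
        (D : ℕ∞) < (G.induce {x | ∀ v ∈ S, G.Adj v x ↔ v ∈ P}).chromaticNumber) ∧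
    (∀ m k D : ℕ, (G.adjMatrix K).rank ≤ 2 ^ m + 2 → 8 ≤ D →
      ((D * 2 ^ (k * (m * (m + 11) / 2)) : ℕ) : ℕ∞) < G.chromaticNumber →
      ∀ H : SimpleGraph (Fin k), ∃ e : H ↪g G, ∀ P : Set (Fin k),
        (D : ℕ∞) < (G.induce {x | ∀ i, G.Adj (e i) x ↔ i ∈ P}).chromaticNumber) := by
  classical
  have hind : ind K G.Adj = G.adjMatrix K := by
    ext x y
    simp [ind, SimpleGraph.adjMatrix_apply]
  refine ⟨fun r s D hr hG => ?_, fun m k D hr hD hG H => ?_⟩
  · rw [lt_iff] at hG
    obtain ⟨S, hS, h⟩ := shatter_graph (K := K) G (by rw [hind]; exact hr) s D hG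
    exact ⟨S, hS, fun P hP => lt_iff.2 (h P hP)⟩
  · rw [lt_iff] at hG
    obtain ⟨f, hf, hP⟩ := robust_graph (K := K) m G (by rw [hind]; exact hr) k H D hD hG
    have hinj : Function.Injective f := by
      intro i j hij
      by_contra hne
      refine hP {i} ?_
      have : IsEmpty {x | ∀ l, G.Adj (f l) x ↔ l ∈ ({i} : Set (Fin k))} := ⟨fun x => by
        have h1 := (x.2 i).2 rfl
        rw [hij] at h1
        exact hne ((x.2 j).1 h1).symm⟩
      exact SimpleGraph.Colorable.of_isEmpty D
    exact ⟨⟨⟨f, hinj⟩, fun {i j} => hf i j⟩, fun P => lt_iff.2 (hP P)⟩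

end Pool.Agent.Results.MP_3bd889_lc.RobustShattering
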