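import Mathlib
import Pool.Agent.H630R2.LR.Bounds
import Pool.Agent.X249.GR.Cover

/-!
# Chromatic number and rank for Toeplitz and Hankel graphs

Graphs on intervals of integers whose adjacency depends only on the difference, or only on the sum,
of the two integers, and graphs that are covered by such pieces.
-/

set_option autoImplicit false

namespace Pool.Agent.Results.MP_3bd889_lc.ToeplitzGraphs

open Finset Pool.Agent.H630R2.LR

/-- **Chromatic number and rank for graphs covered by Toeplitz and Hankel graphs.** Let the vertices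
of the finite graph `G` be covered by the images of `t` maps `φ j : {0, ..., n j - 1} → V` such that,
for every `j`, the adjacency of `φ j x` and `φ j y` is a function of `x - y` (Toeplitz graphs) or a
function of `x + y` (Hankel graphs); nothing is assumed about the edges between different pieces.
Then `log₂ χ(G) ≤ log₂ t + 11 (log₂ r + 1) ^ 5`, where `r` is the real rank of the adjacency
matrix of `G`. -/
theorem result (t : ℕ) (V : Type) [Fintype V] (G : SimpleGraph V) [DecidableRel G.Adj]
    (n : Fin t → ℕ) (φ : ∀ j, Fin (n j) → V) (hφ : ∀ v, ∃ j x, φ j x = v)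
    (hG : ∀ j, (∃ f : ℤ → Prop, ∀ x y : Fin (n j), G.Adj (φ j x) (φ j y) ↔ f ((x : ℤ) - (y : ℤ))) ∨
      (∃ f : ℤ → Prop, ∀ x y : Fin (n j), G.Adj (φ j x) (φ j y) ↔ f ((x : ℤ) + (y : ℤ)))) :
    Real.logb 2 (G.chromaticNumber.toNat : ℝ) ≤
      Real.logb 2 t + 11 * (Real.logb 2 ((G.adjMatrix ℝ).rank : ℝ) + 1) ^ 5 := by
  classical
  have hr : 0 ≤ Real.logb 2 ((G.adjMatrix ℝ).rank : ℝ) := Pool.Agent.X249.GR.logb_nonneg _
  refine Pool.Agent.X249.GR.chrom_cover G t (fun j => Fin (n j)) φ hφ _ (by positivity) ?_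
  intro j
  obtain ⟨c, hc, hcB⟩ := final_hankel (fun x y : Fin (n j) => decide (G.Adj (φ j x) (φ j y))) (by
    rcases hG j with ⟨f, hf⟩ | ⟨f, hf⟩
    · exact Or.inr ⟨fun z => decide (f z), fun x y => by simp only [hf]⟩
    · exact Or.inl ⟨fun z => decide (f z), fun x y => by simp only [hf]⟩)
  refine ⟨c, hc, hcB.trans ?_⟩
  refine mul_le_mul_of_nonneg_left ?_ (by norm_num)
  have h1 : Real.logb 2 ((comm (fun x y : Fin (n j) => decide (G.Adj (φ j x) (φ j y)))).rank : ℝ) ≤
      Real.logb 2 ((G.adjMatrix ℝ).rank : ℝ) :=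
    Pool.Agent.X249.GR.logb_mono (Pool.Agent.X249.GR.rank_pull G (φ j) _ (fun x y => rfl))
  have h2 : 0 ≤ Real.logb 2
      ((comm (fun x y : Fin (n j) => decide (G.Adj (φ j x) (φ j y)))).rank : ℝ) :=
    Pool.Agent.X249.GR.logb_nonneg _
  exact pow_le_pow_left₀ (by linarith) (by linarith) 5

end Pool.Agent.Results.MP_3bd889_lc.ToeplitzGraphs
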